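import Pool.Agent.Helper76.TC.Goals

/-!
# Project TC (MP_ccd65d_gt), packet CE
-/

set_option autoImplicit false

open Set Topology

namespace Pool.Agent.Helper12.TC.CE

open Pool.Agent.Helper50.CT (rv Cov Sh)
open Pool.Agent.Helper76.TC

/-- the periodic curve through `z` -/
theorem curve (hPE : S_PE) (X T : Type) [MetricSpace X] [MetricSpace T] [AddAction (Fin 2 → ℤ) X]
    (π : X → T) (φ : (Fin 2 → ℝ) ≃ₜ X) (A s : ℝ)
    (hφ : ∀ (k : Fin 2 → ℤ) v, φ (rv k + v) = k +ᵥ φ v)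
    (hC : Cov 2 X T π) (hA : 1 ≤ A) (hT : Turn A X) (z : X) (k : Fin 2 → ℤ) (hk : k ∈ Sh 2 z s) :
    ∃ γ : ℝ → (Fin 2 → ℝ), Continuous γ ∧ (∀ t, dist (π z) (π (φ (γ t))) ≤ A * s) ∧
      ∀ t, γ (t + 1) = rv k + γ t := by
  have hk' : dist z (k +ᵥ z) ≤ s := hk
  have e1 : φ.symm (k +ᵥ z) = rv k + φ.symm z := by
    rw [Homeomorph.symm_apply_eq, hφ, Homeomorph.apply_symm_apply]
  obtain ⟨γ, hγ, hγS, hγp⟩ := hPE 2 {v | dist (π z) (π (φ v)) ≤ A * s} k (φ.symm z) (by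
      intro k' v hv
      have : π (φ (rv k' + v)) = π (φ v) := by rw [hφ, hC.inv]
      show dist (π z) (π (φ (rv k' + v))) ≤ A * s
      rw [this]; exact hv) (by
      obtain ⟨p, hp⟩ := hT z (k +ᵥ z)
      rw [← e1]
      refine ⟨p.map φ.symm.continuous, fun t => ?_⟩
      show dist (π z) (π (φ (φ.symm (p t)))) ≤ A * s
      rw [Homeomorph.apply_symm_apply]
      have h1 : dist (p t) z ≤ A * dist z (k +ᵥ z) := hp t
      have h2 := hC.le z (p t) 0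
      rw [zero_vadd] at h2
      calc dist (π z) (π (p t)) ≤ dist z (p t) := h2
        _ = dist (p t) z := dist_comm _ _
        _ ≤ A * dist z (k +ᵥ z) := h1
        _ ≤ A * s := mul_le_mul_of_nonneg_left hk' (by linarith))
  exact ⟨γ, hγ, hγS, hγp⟩

theorem t (hPE : S_PE) (hPL : S_PL) (hNP : S_NP) : S_CE := by
  intro X T _ _ _ π φ A s x y hφ hC hA hT _ hd h1 h2
  obtain ⟨k, hk, k', hk', hdet⟩ := hNP _ _ h1 h2
  obtain ⟨γ, hγ, hγS, hγp⟩ := curve hPE X T π φ A s hφ hC hA hT y k hk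
  obtain ⟨γ', hγ', hγS', hγp'⟩ := curve hPE X T π φ A s hφ hC hA hT x k' hk'
  obtain ⟨u, u', huu⟩ := hPL k k' hdet γ γ' hγ hγ' hγp hγp'
  have a := hγS u
  have b := hγS' u'
  rw [← huu] at b
  have c := dist_triangle (π y) (π (φ (γ u))) (π x)
  rw [dist_comm (π (φ (γ u))) (π x)] at c
  linarith

end Pool.Agent.Helper12.TC.CE
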